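import Pool.Agent.Helper57.SI.Stmts

/-!
# The combination, for one direction (row CM)
-/

set_option autoImplicit false

namespace Pool.Agent.Helper81.SI

open MeasureTheory Set Filter Topology
open Pool.Agent.Helper57.QZ (Pr tor circ aa Zy Wy Sy Vy Ky Fy pt lin)
open Pool.Agent.Helper57.SI

theorem cm_re (θ : ℝ) (W : ℂ) : |(Complex.exp (-((θ : ℂ) * Complex.I)) * W).re| ≤ ‖W‖ := by
  refine (Complex.abs_re_le_norm _).trans ?_
  rw [norm_mul, Complex.norm_exp]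
  simp

theorem st_CM (h1 : ST_MT) (h2 : ST_DU) (h3 : ST_DL) (h4 : ST_DW) (h5 : ST_LK) (h6 : ST_UP)
    (h7 : ST_AW) (h8 : ST_LOW) : ST_CM := by
  intro δ hδ κ hκ
  obtain ⟨CU, hU⟩ := h2
  obtain ⟨CL, hCL, hL⟩ := h3
  obtain ⟨CW, hCW, hW⟩ := h4
  have hδ0 := hδ.1
  have hδ1 := hδ.2
  obtain ⟨η, hδη⟩ : ∃ η : ℝ, δ = 100 * η := ⟨δ / 100, by ring⟩
  have hη0 : 0 < η := by linarith
  have hη1 : η < 1 / 100 := by linarith
  have hηI : η ∈ Ioo (0:ℝ) 1 := ⟨hη0, by linarith⟩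
  obtain ⟨C, hC⟩ : ∃ C : ℝ, C = 1 + |CU| + CW + (CL / η) ^ 2 := ⟨_, rfl⟩
  have hCC : 0 ≤ (CL / η) ^ 2 := sq_nonneg _
  have hCU : CU ≤ |CU| := le_abs_self _
  have hCU0 : 0 ≤ |CU| := abs_nonneg _
  obtain ⟨Ha, hHa⟩ := h1 η hηI C
  obtain ⟨Hb, hHb⟩ := h6 η hηI (κ / 4) (by positivity)
  obtain ⟨Hc, hHc⟩ := h8 η hηI (κ / 4) (by positivity)
  refine ⟨max Ha (max Hb Hc), fun H hH => ?_⟩
  have hH1 : Ha ≤ H := (le_max_left _ _).trans hH
  have hH2 : Hb ≤ H := ((le_max_left _ _).trans (le_max_right _ _)).trans hH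
  have hH3 : Hc ≤ H := ((le_max_right _ _).trans (le_max_right _ _)).trans hH
  obtain ⟨m1, m2, m3, m4, m5, m6, m7, m8, m9⟩ := hHa H hH1
  obtain ⟨L, hLdef⟩ : ∃ L : ℝ, Real.log (Real.log H) = L := ⟨_, rfl⟩
  rw [hLdef] at m2 m6 m7 m8
  rw [hLdef]
  have hLpos : 1 ≤ L := by linarith
  have hz1 : 1 ≤ zz H := by
    have : (1:ℝ) ≤ (zz H : ℝ) := by linarith
    exact_mod_cast this
  refine ⟨by linarith, hLpos, ?_⟩
  obtain ⟨y₀, hy₀⟩ := h7 η hηI (κ / 4) (by positivity) H (by linarith)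
  obtain ⟨y, hy1, hy2⟩ : ∃ y : ℕ, y₀ ≤ y ∧ zz H ≤ y :=
    ⟨max y₀ (zz H), le_max_left _ _, le_max_right _ _⟩
  obtain ⟨Ta, hTa, hTa'⟩ := hy₀ y hy1
  obtain ⟨Tb, hTb, hTb'⟩ := hHb H hH2 y
  obtain ⟨Tc, hTc, hTc'⟩ := hHc H hH3 y 0 hy2
  refine ⟨Real.exp (P1 (zz H) + Ky y 1), Real.exp_pos _, fun θ => ?_⟩
  obtain ⟨A, hA⟩ : ∃ A : ℝ, Real.exp (P1 (zz H) + Ky y 1) = A := ⟨_, rfl⟩
  have hApos : 0 < A := by rw [← hA]; exact Real.exp_pos _
  rw [hA]
  obtain ⟨Td, hTd, hTd'⟩ := hHc H hH3 y (θ + Real.pi) hy2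
  refine ⟨max (max Ta Tb) (max Tc Td),
    lt_of_lt_of_le hTa ((le_max_left _ _).trans (le_max_left _ _)), fun T hT => ?_⟩
  have hT1 : Ta ≤ T := ((le_max_left _ _).trans (le_max_left _ _)).trans hT
  have hT2 : Tb ≤ T := ((le_max_right _ _).trans (le_max_left _ _)).trans hT
  have hT3 : Tc ≤ T := ((le_max_left _ _).trans (le_max_right _ _)).trans hT
  have hT4 : Td ≤ T := ((le_max_right _ _).trans (le_max_right _ _)).trans hT
  have hTpos : 0 < T := lt_of_lt_of_le hTa hT1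
  obtain ⟨E1, e1, e1', e1''⟩ := hTa' T hT1
  obtain ⟨E2, e2, e2', e2''⟩ := hTb' T hT2
  obtain ⟨E3, e3, e3', e3''⟩ := hTc' T hT3
  obtain ⟨E4, e4, e4', e4''⟩ := hTd' T hT4
  refine ⟨(E1 ∪ E2) ∪ (E3 ∪ E4), union_subset (union_subset e1 e2) (union_subset e3 e4), ?_,
    fun u hu huE => ?_⟩
  · have a1 := measureReal_union_le (μ := (volume : Measure ℝ)) (E1 ∪ E2) (E3 ∪ E4)
    have a2 := measureReal_union_le (μ := (volume : Measure ℝ)) E1 E2
    have a3 := measureReal_union_le (μ := (volume : Measure ℝ)) E3 E4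
    linarith
  simp only [mem_union, not_or] at huE
  obtain ⟨⟨n1, n2⟩, n3, n4⟩ := huE
  have q1 := e1'' u hu n1
  have q2 := e2'' u hu n2
  obtain ⟨t3, ht3, f1, f2, f3, f4⟩ := e3'' u hu n3
  obtain ⟨t4, ht4, g1, g2, g3, g4⟩ := e4'' u hu n4
  have htne : ∀ t ∈ Icc u (u + H), t ≠ 0 := by
    intro t ht
    have : 0 < t := by linarith [ht.1, hu.1]
    exact this.ne'
  have key : ∀ t ∈ Icc u (u + H), riemannZeta (pt 1 t) ≠ 0 ∧
      (1 - η) * ‖Zy y 1 (lin y t)‖ ≤ ‖riemannZeta (pt 1 t)‖ ∧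
      ‖riemannZeta (pt 1 t)‖ ≤ (1 + η) * ‖Zy y 1 (lin y t)‖ ∧
      ‖deriv riemannZeta (pt 1 t) / riemannZeta (pt 1 t) - Wy y 1 (lin y t)‖ ≤ 2 * η := by
    intro t ht
    exact h5 y t η (htne t ht) hη0.le (by linarith) (q1 t ht).1 (q1 t ht).2
  -- the lower bound for the logarithmic derivative in a direction
  have low : ∀ (t ϑ α : ℝ), α = ϑ + Real.pi → t ∈ Icc u (u + H) →
      D2 (zz H) α t ≤ η * Real.log (zz H) → ‖tl 1 y (zz H) (lin y t)‖ ≤ η →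
      (1 - δ) * L ≤ (Complex.exp (-((ϑ : ℂ) * Complex.I)) *
        (deriv riemannZeta (pt 1 t) / riemannZeta (pt 1 t))).re := by
    intro t ϑ α hα ht hd htl
    rw [hα] at hd
    have w1 := hW y (zz H) t ϑ η (η * Real.log (zz H)) hy2 hd htl
    obtain ⟨-, -, -, w2⟩ := key t ht
    have w3 := cm_re ϑ (deriv riemannZeta (pt 1 t) / riemannZeta (pt 1 t) - Wy y 1 (lin y t))
    have w4 := (abs_le.1 (w3.trans w2)).1
    rw [mul_sub, Complex.sub_re] at w4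
    have w5 : η * Real.log (zz H) ≤ η * L := mul_le_mul_of_nonneg_left m6 hη0.le
    have w6 : δ * L = 100 * (η * L) := by rw [hδη]; ring
    have w7 : 0 ≤ η * L := by positivity
    nlinarith [w1, w4, w5, w6, w7, m8]
  refine ⟨fun t ht => ?_, ⟨t3, ht3, ?_, ?_⟩, ⟨t4, ht4, ?_⟩⟩
  · obtain ⟨k1, k2, k3, k4⟩ := key t ht
    obtain ⟨u1, u2⟩ := hU y (ZZ η H) (lin y t) η (q2 t ht).1 (q2 t ht).2
    refine ⟨k1, ?_, ?_⟩
    · have b1 : Real.exp (P1 (ZZ η H) + Ky y 1 + η) ≤ A * Real.exp (3 * η) := by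
        rw [← hA, ← Real.exp_add]
        exact Real.exp_le_exp.2 (by linarith)
      have b2 : Real.exp (3 * η) ≤ 1 + 4 * η := by
        have b3 := Real.abs_exp_sub_one_sub_id_le (x := 3 * η)
          (by rw [abs_of_nonneg (by positivity)]; linarith)
        have b4 := (abs_le.1 b3).2
        nlinarith [b4, hη0, hη1]
      have b5 : (1 + η) * ‖Zy y 1 (lin y t)‖ ≤ (1 + η) * (A * (1 + 4 * η)) :=
        mul_le_mul_of_nonneg_left
          ((u1.trans b1).trans (mul_le_mul_of_nonneg_left b2 hApos.le)) (by linarith)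
      have b6 : (1 + η) * (A * (1 + 4 * η)) ≤ (1 + δ) * A := by
        have : (1 + η) * (1 + 4 * η) ≤ 1 + δ := by rw [hδη]; nlinarith [hη0, hη1]
        calc (1 + η) * (A * (1 + 4 * η)) = ((1 + η) * (1 + 4 * η)) * A := by ring
          _ ≤ (1 + δ) * A := mul_le_mul_of_nonneg_right this hApos.le
      exact k3.trans (b5.trans b6)
    · have c1 : ‖deriv riemannZeta (pt 1 t) / riemannZeta (pt 1 t)‖ ≤
          ‖deriv riemannZeta (pt 1 t) / riemannZeta (pt 1 t) - Wy y 1 (lin y t)‖ +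
            ‖Wy y 1 (lin y t)‖ := by
        have := norm_add_le (deriv riemannZeta (pt 1 t) / riemannZeta (pt 1 t) -
          Wy y 1 (lin y t)) (Wy y 1 (lin y t))
        rwa [sub_add_cancel] at this
      have c2 : 0 ≤ η * L := by positivity
      have c3 : δ * L = 100 * (η * L) := by rw [hδη]; ring
      nlinarith [c1, c2, c3, k4, u2, m7]
  · obtain ⟨k1, k2, k3, k4⟩ := key t3 ht3
    have l1 := hL y (zz H) t3 η hz1 hy2 f1 f3
    have hzpos : (0:ℝ) < (zz H : ℝ) := by exact_mod_cast hz1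
    have l2 : CL / Real.sqrt (zz H) ≤ η := by
      have s1 : CL / η ≤ Real.sqrt (zz H) := by
        apply Real.le_sqrt_of_sq_le
        linarith
      have s2 : 0 < Real.sqrt (zz H : ℝ) := Real.sqrt_pos.2 hzpos
      rw [div_le_iff₀ s2]
      rw [div_le_iff₀ hη0] at s1
      linarith
    have l3 : A * Real.exp (-(19 * η)) ≤ ‖Zy y 1 (lin y t3)‖ := by
      refine le_trans ?_ l1
      rw [← hA, ← Real.exp_add]
      exact Real.exp_le_exp.2 (by linarith)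
    have l4 : 1 - 19 * η ≤ Real.exp (-(19 * η)) := by
      have := Real.add_one_le_exp (-(19 * η))
      linarith
    have l5 : A * (1 - 19 * η) ≤ ‖Zy y 1 (lin y t3)‖ :=
      (mul_le_mul_of_nonneg_left l4 hApos.le).trans l3
    have l6 : (1 - η) * (A * (1 - 19 * η)) ≤ (1 - η) * ‖Zy y 1 (lin y t3)‖ :=
      mul_le_mul_of_nonneg_left l5 (by linarith)
    have l7 : (1 - δ) * A ≤ (1 - η) * (A * (1 - 19 * η)) := by
      have : 1 - δ ≤ (1 - η) * (1 - 19 * η) := by rw [hδη]; nlinarith [hη0, hη1]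
      calc (1 - δ) * A ≤ ((1 - η) * (1 - 19 * η)) * A :=
            mul_le_mul_of_nonneg_right this hApos.le
        _ = (1 - η) * (A * (1 - 19 * η)) := by ring
    exact l7.trans (l6.trans k2)
  · have r1 := low t3 (-Real.pi) 0 (by ring) ht3 f2 f4
    exact r1.trans ((le_abs_self _).trans (cm_re _ _))
  · exact low t4 θ (θ + Real.pi) rfl ht4 g2 g4

end Pool.Agent.Helper81.SI
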